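import Mathlib
import Pool.Agent.H.MP_b50c09_co.Bridge

namespace Pool.Agent.Results.MP_b50c09_co.Packing

open Finset

/-- A 3-graph on a vertex type: a finite set of 3-element vertex sets. -/
def IsThreeGraph {V : Type} (G : Finset (Finset V)) : Prop := ∀ e ∈ G, e.card = 3

/-- The vertices can be split into three classes, every edge meeting each class exactly once. -/
def Tripartite {W : Type} (H : Finset (Finset W)) : Prop :=
  ∃ χ : W → Fin 3, ∀ e ∈ H, ∀ i, (e.filter fun w => χ w = i).card = 1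

/-- The number of edges containing `v`. -/
def degree {V : Type} [DecidableEq V] (G : Finset (Finset V)) (v : V) : ℕ :=
  (G.filter fun e => v ∈ e).card

/-- The number of `w` outside `{u, v}` with `{u, v, w}` an edge. -/
def pairDegree {V : Type} [Fintype V] [DecidableEq V] (G : Finset (Finset V)) (u v : V) : ℕ :=
  (univ.filter fun w => w ≠ u ∧ w ≠ v ∧ ({u, v, w} : Finset V) ∈ G).card

/-- `φ` embeds `H` into `G`: it is injective on vertices and sends edges to edges. -/
def IsCopy {W V : Type} [DecidableEq V] (H : Finset (Finset W)) (G : Finset (Finset V))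
    (φ : W → V) : Prop :=
  Function.Injective φ ∧ ∀ e ∈ H, e.image φ ∈ G

theorem result :
    ∀ (h : ℕ) (H : Finset (Finset (Fin h))), 0 < h → IsThreeGraph H → Tripartite H →
    ∀ c : ℝ, 0 < c → c < 1 → ∃ C : ℝ, 0 < C ∧
      ∀ (n d : ℕ) (G : Finset (Finset (Fin n))), IsThreeGraph G → (∀ v, degree G v = d) →
        c * (n : ℝ) ^ 2 ≤ d → (∀ u v, u ≠ v → c * n ≤ pairDegree G u v) →
        ∃ (m : ℕ) (φ : Fin m → Fin h → Fin n), (∀ i, IsCopy H G (φ i)) ∧
          (∀ i j, i ≠ j → Disjoint (univ.image (φ i)) (univ.image (φ j))) ∧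
          ((univ.filter fun v => ∀ i w, φ i w ≠ v).card : ℝ) ≤ C := by
  intro h H hh _ ⟨χ, hχ⟩ c hc hc1
  exact Pool.Agent.H.MP_b50c09_co.bridge h H hh χ hχ c hc hc1

end Pool.Agent.Results.MP_b50c09_co.Packing
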